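import Pool.Agent.H92.CK.Targets
import Pool.Agent.H27.IC.GHC

/-!
# OSG: complex differentiable functions of several variables are analytic
-/

open MeasureTheory Set Filter Topology Metric
open scoped Real BoundedContinuousFunction

namespace Pool.Agent.H33.CK

open Pool.Agent.H92.CK Pool.Agent.H94.IC

theorem osg_torus_norm {n : ℕ} (c : Fin n → ℂ) {R : ℝ} (hR : 0 < R) (θ : Fin n → ℝ) (i : Fin n) :
    ‖torusMap c (fun _ => R) θ i - c i‖ = R := by
  unfold torusMap
  rw [add_sub_cancel_left, norm_mul, Complex.norm_exp_ofReal_mul_I, mul_one, Complex.norm_real,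
    Real.norm_eq_abs, abs_of_pos hR]

theorem osg_torus_cont {n : ℕ} (c : Fin n → ℂ) (R : ℝ) :
    Continuous (torusMap c (fun _ => R)) := by
  unfold torusMap
  fun_prop

theorem osg_torus_ne {n : ℕ} {c w : Fin n → ℂ} {R : ℝ} (hR : 0 < R)
    (hw : ∀ i, ‖w i - c i‖ < R) (θ : Fin n → ℝ) (i : Fin n) :
    torusMap c (fun _ => R) θ i - w i ≠ 0 := by
  intro h
  have h1 := osg_torus_norm c hR θ i
  have h2 := hw i
  rw [sub_eq_zero.1 h] at h1
  linarith

/-- the integrand of the Cauchy formula -/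
noncomputable def osgK {n : ℕ} (F : (Fin n → ℂ) → ℂ) (w ζ : Fin n → ℂ) : ℂ :=
  (∏ i, (ζ i - w i)⁻¹) * F ζ

theorem osg_int {n : ℕ} {F : (Fin n → ℂ) → ℂ} {c w : Fin n → ℂ} {R : ℝ} (hR : 0 < R)
    (hF : ∀ z : Fin n → ℂ, (∀ i, ‖z i - c i‖ ≤ R) → DifferentiableAt ℂ F z)
    (hw : ∀ i, ‖w i - c i‖ < R) : TorusIntegrable (osgK F w) c (fun _ => R) := by
  have h1 : Continuous fun θ : Fin n → ℝ => osgK F w (torusMap c (fun _ => R) θ) := by
    unfold osgK
    refine Continuous.mul ?_ ?_
    · refine continuous_finsetProd _ fun i _ => ?_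
      refine Continuous.inv₀ ?_ fun θ => osg_torus_ne hR hw θ i
      exact ((continuous_apply i).comp (osg_torus_cont c R)).sub continuous_const
    · rw [continuous_iff_continuousAt]
      intro θ
      have h2 := (hF (torusMap c (fun _ => R) θ)
        fun i => (osg_torus_norm c hR θ i).le).continuousAt
      exact ContinuousAt.comp (g := F) h2 (osg_torus_cont c R).continuousAt
  exact h1.continuousOn.integrableOn_compact isCompact_Icc

/-- Cauchy's formula on polydiscs -/
theorem osg_cauchy : ∀ (n : ℕ) (c w : Fin n → ℂ) (R : ℝ) (F : (Fin n → ℂ) → ℂ), 0 < R →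
    (∀ z : Fin n → ℂ, (∀ i, ‖z i - c i‖ ≤ R) → DifferentiableAt ℂ F z) →
    (∀ i, ‖w i - c i‖ < R) →
    torusIntegral (osgK F w) c (fun _ => R) = (2 * π * Complex.I) ^ n * F w := by
  intro n
  induction n with
  | zero =>
    intro c w R F hR hF hw
    rw [torusIntegral_dim0]
    unfold osgK
    rw [Fin.prod_univ_zero, one_mul, pow_zero, one_mul, Subsingleton.elim c w]
  | succ n ih =>
    intro c w R F hR hF hw
    rw [torusIntegral_succ (osg_int hR hF hw)]
    have h1 : ∀ x : ℂ, ‖x - c 0‖ ≤ R →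
        (∯ y in T(c ∘ Fin.succ, (fun _ => R) ∘ Fin.succ), osgK F w (Fin.cons x y)) =
        (x - w 0)⁻¹ • ((2 * π * Complex.I) ^ n * F (Fin.cons x (w ∘ Fin.succ))) := by
      intro x hx
      have h2 : (fun y : Fin n → ℂ => osgK F w (Fin.cons x y)) = fun y =>
          (x - w 0)⁻¹ * osgK (fun y => F (Fin.cons x y)) (w ∘ Fin.succ) y := by
        funext y
        unfold osgK
        rw [Fin.prod_univ_succ]
        simp only [Fin.cons_zero, Fin.cons_succ, Function.comp_apply]
        ring
      have h3 : torusIntegral (fun y : Fin n → ℂ => osgK F w (Fin.cons x y)) (c ∘ Fin.succ)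
          ((fun _ => R) ∘ Fin.succ) = (x - w 0)⁻¹ *
          torusIntegral (osgK (fun y => F (Fin.cons x y)) (w ∘ Fin.succ)) (c ∘ Fin.succ)
            (fun _ => R) := by
        rw [h2]
        exact torusIntegral_const_mul _ _ _ _
      rw [h3, ih (c ∘ Fin.succ) (w ∘ Fin.succ) R (fun y => F (Fin.cons x y)) hR ?_ ?_]
      · rfl
      · intro z hz
        have h4 : ∀ i, ‖(Fin.cons x z : Fin (n + 1) → ℂ) i - c i‖ ≤ R := by
          intro i
          refine Fin.cases ?_ (fun j => ?_) i
          · rw [Fin.cons_zero]; exact hx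
          · rw [Fin.cons_succ]; exact hz j
        have h5 := hF _ h4
        have h6 : DifferentiableAt ℂ (fun y : Fin n → ℂ => (Fin.cons x y : Fin (n + 1) → ℂ)) z := by
          rw [differentiableAt_pi]
          intro i
          refine Fin.cases ?_ (fun j => ?_) i
          · simp only [Fin.cons_zero]
            exact differentiableAt_const _
          · simp only [Fin.cons_succ]
            exact differentiableAt_apply j z
        exact DifferentiableAt.comp z (g := F) h5 h6
      · intro i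
        exact hw i.succ
    have h2 : (∮ x in C(c 0, (fun _ => R) (0 : Fin (n + 1))),
        ∯ y in T(c ∘ Fin.succ, (fun _ => R) ∘ Fin.succ), osgK F w (Fin.cons x y)) =
        ∮ x in C(c 0, R), (x - w 0)⁻¹ •
          ((2 * π * Complex.I) ^ n * F (Fin.cons x (w ∘ Fin.succ))) := by
      refine circleIntegral.integral_congr hR.le fun x hx => ?_
      refine h1 x ?_
      rw [mem_sphere, Complex.dist_eq] at hx
      exact hx.le
    rw [h2]
    have h3 : DifferentiableOn ℂ (fun x : ℂ => (2 * π * Complex.I) ^ n *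
        F (Fin.cons x (w ∘ Fin.succ))) (closedBall (c 0) R) := by
      intro x hx
      rw [mem_closedBall, Complex.dist_eq] at hx
      have h4 : ∀ i, ‖(Fin.cons x (w ∘ Fin.succ) : Fin (n + 1) → ℂ) i - c i‖ ≤ R := by
        intro i
        refine Fin.cases ?_ (fun j => ?_) i
        · rw [Fin.cons_zero]; exact hx
        · rw [Fin.cons_succ]; exact (hw j.succ).le
      have h6 : DifferentiableAt ℂ (fun x : ℂ =>
          (Fin.cons x (w ∘ Fin.succ) : Fin (n + 1) → ℂ)) x := by
        rw [differentiableAt_pi]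
        intro i
        refine Fin.cases ?_ (fun j => ?_) i
        · simp only [Fin.cons_zero]
          exact differentiableAt_id
        · simp only [Fin.cons_succ]
          exact differentiableAt_const _
      have h7 : DifferentiableAt ℂ (fun x : ℂ => F (Fin.cons x (w ∘ Fin.succ))) x :=
        DifferentiableAt.comp x (g := F) (hF _ h4) h6
      exact (h7.const_mul _).differentiableWithinAt
    have h4 : w 0 ∈ ball (c 0) R := by
      rw [mem_ball, Complex.dist_eq]
      exact hw 0
    rw [h3.circleIntegral_sub_inv_smul h4]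
    have h5 : (Fin.cons (w 0) (w ∘ Fin.succ) : Fin (n + 1) → ℂ) = w := by
      funext i
      refine Fin.cases rfl (fun j => rfl) i
    rw [h5, smul_eq_mul, pow_succ]
    ring

/-! ## Analyticity -/

section an

variable {n : ℕ}

instance osg_fin (n : ℕ) :
    IsFiniteMeasure (volume.restrict (Icc (0 : Fin n → ℝ) (fun _ => 2 * π))) :=
  ⟨by rw [Measure.restrict_apply_univ]; exact isCompact_Icc.measure_lt_top⟩

/-- the integral as a continuous functional -/
noncomputable def osgL (n : ℕ) : ((Fin n → ℝ) →ᵇ ℂ) →L[ℂ] ℂ :=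
  LinearMap.mkContinuous
    { toFun := fun f => ∫ θ in Icc (0 : Fin n → ℝ) (fun _ => 2 * π), f θ
      map_add' := fun f g => by
        have := integral_add (f.integrable (volume.restrict (Icc (0 : Fin n → ℝ)
          (fun _ => 2 * π)))) (g.integrable (volume.restrict (Icc (0 : Fin n → ℝ)
          (fun _ => 2 * π))))
        exact this
      map_smul' := fun a f => by
        have := integral_smul (μ := volume.restrict (Icc (0 : Fin n → ℝ) (fun _ => 2 * π)))
          a (fun θ => f θ)
        exact this }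
    ((volume.restrict (Icc (0 : Fin n → ℝ) (fun _ => 2 * π))).real Set.univ)
    (fun f => f.norm_integral_le_mul_norm _)

theorem osgL_apply (f : (Fin n → ℝ) →ᵇ ℂ) :
    osgL n f = ∫ θ in Icc (0 : Fin n → ℝ) (fun _ => 2 * π), f θ := rfl

/-- the coordinate functions on the torus -/
noncomputable def osgC (c : Fin n → ℂ) (R : ℝ) (j : Fin n) : (Fin n → ℝ) →ᵇ ℂ :=
  BoundedContinuousFunction.ofNormedAddCommGroup (fun θ => torusMap c (fun _ => R) θ j)
    ((continuous_apply j).comp (osg_torus_cont c R)) (‖c j‖ + |R|) (fun θ => by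
      unfold torusMap
      refine (norm_add_le _ _).trans ?_
      rw [norm_mul, Complex.norm_exp_ofReal_mul_I, mul_one, Complex.norm_real,
        Real.norm_eq_abs])

theorem osgC_apply (c : Fin n → ℂ) (R : ℝ) (j : Fin n) (θ : Fin n → ℝ) :
    osgC c R j θ = torusMap c (fun _ => R) θ j := rfl

theorem osg_unit {c : Fin n → ℂ} {R : ℝ} (hR : 0 < R) (j : Fin n) :
    IsUnit (osgC c R j - c j • (1 : (Fin n → ℝ) →ᵇ ℂ)) := by
  have hne : ∀ θ : Fin n → ℝ, torusMap c (fun _ => R) θ j - c j ≠ 0 := by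
    intro θ h
    have h1 := osg_torus_norm c hR θ j
    rw [h, norm_zero] at h1
    exact hR.ne h1
  have hcont : Continuous fun θ : Fin n → ℝ => (torusMap c (fun _ => R) θ j - c j)⁻¹ :=
    Continuous.inv₀ (((continuous_apply j).comp (osg_torus_cont c R)).sub continuous_const) hne
  have hb : ∀ θ : Fin n → ℝ, ‖(torusMap c (fun _ => R) θ j - c j)⁻¹‖ ≤ R⁻¹ := by
    intro θ
    rw [norm_inv, osg_torus_norm c hR θ j]
  refine IsUnit.of_mul_eq_one (BoundedContinuousFunction.ofNormedAddCommGroup _ hcont R⁻¹ hb) ?_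
  ext θ
  show (torusMap c (fun _ => R) θ j - c j • (1 : ℂ)) *
    (torusMap c (fun _ => R) θ j - c j)⁻¹ = 1
  rw [smul_eq_mul, mul_one]
  exact mul_inv_cancel₀ (hne θ)

theorem osg_inverse_apply {u : (Fin n → ℝ) →ᵇ ℂ} (hu : IsUnit u) (θ : Fin n → ℝ) :
    Ring.inverse u θ = (u θ)⁻¹ := by
  have h1 := Ring.mul_inverse_cancel u hu
  have h2 : u θ * Ring.inverse u θ = 1 := by
    have := congrArg (fun f : (Fin n → ℝ) →ᵇ ℂ => f θ) h1
    exact this
  exact eq_inv_of_mul_eq_one_right h2

/-- Osgood's lemma -/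
theorem osg_main {F : (Fin n → ℂ) → ℂ} {U : Set (Fin n → ℂ)} (hU : IsOpen U)
    (hF : DifferentiableOn ℂ F U) : AnalyticOnNhd ℂ F U := by
  intro c hc
  obtain ⟨R, hR, hball⟩ : ∃ R : ℝ, 0 < R ∧ closedBall c R ⊆ U := by
    obtain ⟨ε, hε, h⟩ := Metric.isOpen_iff.1 hU c hc
    exact ⟨ε / 2, by positivity, (closedBall_subset_ball (by linarith)).trans h⟩
  have hmem : ∀ z : Fin n → ℂ, (∀ i, ‖z i - c i‖ ≤ R) → z ∈ closedBall c R := by
    intro z hz
    rw [mem_closedBall, dist_pi_le_iff hR.le]
    intro i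
    rw [Complex.dist_eq]
    exact hz i
  have hdiff : ∀ z : Fin n → ℂ, (∀ i, ‖z i - c i‖ ≤ R) → DifferentiableAt ℂ F z := fun z hz =>
    hF.differentiableAt (hU.mem_nhds (hball (hmem z hz)))
  -- the bounded function `g`
  have hFc : Continuous fun θ : Fin n → ℝ => F (torusMap c (fun _ => R) θ) := by
    rw [continuous_iff_continuousAt]
    intro θ
    have h2 := (hdiff (torusMap c (fun _ => R) θ)
      fun i => (osg_torus_norm c hR θ i).le).continuousAt
    exact ContinuousAt.comp (g := F) h2 (osg_torus_cont c R).continuousAt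
  obtain ⟨M, hM⟩ := (isCompact_closedBall c R).exists_bound_of_continuousOn
    (hF.continuousOn.mono hball)
  have hgc : Continuous fun θ : Fin n → ℝ => (∏ i, (R : ℂ) * Complex.exp (θ i * Complex.I) *
      Complex.I) * F (torusMap c (fun _ => R) θ) := by
    refine Continuous.mul ?_ hFc
    exact continuous_finsetProd _ fun i _ => by fun_prop
  have hgb : ∀ θ : Fin n → ℝ, ‖(∏ i, (R : ℂ) * Complex.exp (θ i * Complex.I) *
      Complex.I) * F (torusMap c (fun _ => R) θ)‖ ≤ R ^ n * M := by
    intro θ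
    rw [norm_mul, norm_prod]
    have h1 : ∀ i : Fin n, ‖(R : ℂ) * Complex.exp (θ i * Complex.I) * Complex.I‖ = R := by
      intro i
      rw [norm_mul, norm_mul, Complex.norm_exp_ofReal_mul_I, Complex.norm_I, mul_one, mul_one,
        Complex.norm_real, Real.norm_eq_abs, abs_of_pos hR]
    rw [Finset.prod_congr rfl fun i _ => h1 i, Finset.prod_const, Finset.card_univ,
      Fintype.card_fin]
    exact mul_le_mul_of_nonneg_left (hM _ (hmem _ fun i => (osg_torus_norm c hR θ i).le))
      (pow_nonneg hR.le n)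
  obtain ⟨g, hg⟩ : ∃ g : (Fin n → ℝ) →ᵇ ℂ, ∀ θ, g θ = (∏ i, (R : ℂ) *
      Complex.exp (θ i * Complex.I) * Complex.I) * F (torusMap c (fun _ => R) θ) :=
    ⟨BoundedContinuousFunction.ofNormedAddCommGroup _ hgc _ hgb, fun θ => rfl⟩
  -- the analytic function
  have haff : ∀ (j : Fin n) (w : Fin n → ℂ), AnalyticAt ℂ
      (fun w : Fin n → ℂ => osgC c R j - w j • (1 : (Fin n → ℝ) →ᵇ ℂ)) w := by
    intro j w
    refine analyticAt_const.fun_sub (AnalyticAt.fun_smul ?_ analyticAt_const)
    exact (ContinuousLinearMap.proj (R := ℂ) (φ := fun _ : Fin n => ℂ) j).analyticAt w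
  have hG : AnalyticAt ℂ (fun w : Fin n → ℂ => osgL n (g * ∏ j : Fin n,
      Ring.inverse (osgC c R j - w j • (1 : (Fin n → ℝ) →ᵇ ℂ)))) c := by
    refine (osgL n).analyticAt _ |>.comp ?_
    refine analyticAt_const.mul (Finset.analyticAt_fun_prod _ fun j _ => ?_)
    have h1 : AnalyticAt ℂ Ring.inverse (osgC c R j - c j • (1 : (Fin n → ℝ) →ᵇ ℂ)) :=
      analyticOnNhd_inverse (𝕜 := ℂ) (A := (Fin n → ℝ) →ᵇ ℂ) _ (osg_unit hR j)
    exact AnalyticAt.comp (g := Ring.inverse) h1 (haff j c)
  have hev1 : ∀ᶠ w in 𝓝 c, ∀ j : Fin n,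
      IsUnit (osgC c R j - w j • (1 : (Fin n → ℝ) →ᵇ ℂ)) := by
    rw [eventually_all]
    intro j
    exact (haff j c).continuousAt.eventually (Units.isOpen.mem_nhds (osg_unit hR j))
  have hev2 : ∀ᶠ w in 𝓝 c, ∀ j : Fin n, ‖w j - c j‖ < R := by
    rw [eventually_all]
    intro j
    have h1 : Continuous (fun w : Fin n → ℂ => ‖w j - c j‖) :=
      ((continuous_apply j).sub continuous_const).norm
    refine h1.continuousAt.eventually (Iio_mem_nhds ?_)
    show ‖c j - c j‖ < R
    rw [sub_self, norm_zero]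
    exact hR
  have hfin : (fun w : Fin n → ℂ => ((2 * π * Complex.I) ^ n)⁻¹ * osgL n (g * ∏ j : Fin n,
      Ring.inverse (osgC c R j - w j • (1 : (Fin n → ℝ) →ᵇ ℂ)))) =ᶠ[𝓝 c] F := by
    filter_upwards [hev1, hev2] with w hw1 hw2
    have h1 := osg_cauchy n c w R F hR hdiff hw2
    have h2 : osgL n (g * ∏ j : Fin n,
        Ring.inverse (osgC c R j - w j • (1 : (Fin n → ℝ) →ᵇ ℂ))) =
        torusIntegral (osgK F w) c (fun _ => R) := by
      rw [osgL_apply]
      unfold torusIntegral
      refine integral_congr_ae (Eventually.of_forall fun θ => ?_)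
      show g θ * (∏ j : Fin n, Ring.inverse (osgC c R j - w j • (1 : (Fin n → ℝ) →ᵇ ℂ))) θ =
        (∏ i : Fin n, (R : ℂ) * Complex.exp (θ i * Complex.I) * Complex.I) •
          osgK F w (torusMap c (fun _ => R) θ)
      rw [BoundedContinuousFunction.prod_apply, hg, smul_eq_mul]
      unfold osgK
      have h3 : ∀ j : Fin n, Ring.inverse (osgC c R j - w j • (1 : (Fin n → ℝ) →ᵇ ℂ)) θ =
          (torusMap c (fun _ => R) θ j - w j)⁻¹ := by
        intro j
        rw [osg_inverse_apply (hw1 j)]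
        show (torusMap c (fun _ => R) θ j - w j • (1 : ℂ))⁻¹ = _
        rw [smul_eq_mul, mul_one]
      rw [Finset.prod_congr rfl fun j _ => h3 j]
      ring
    rw [h2, h1]
    have h3 : ((2 * π * Complex.I) ^ n : ℂ) ≠ 0 := by
      refine pow_ne_zero _ ?_
      simp [Real.pi_ne_zero, Complex.I_ne_zero]
    exact inv_mul_cancel_left₀ h3 _
  exact (analyticAt_const.mul hG).congr hfin

end an

theorem pf_OSG : T_OSG := by
  intro U F hU hF
  exact osg_main hU ((Pool.Agent.H27.IC.gh_iff hU).1 hF)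

end Pool.Agent.H33.CK
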